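import Pool.Agent.PFC.StmtsB1

set_option autoImplicit false

namespace Pool.Agent.PFC.B1.H58

open MulOpposite

variable {R Γ P : Type} [CommRing R] [Ring Γ] [Algebra R Γ] [AddCommGroup P] [Module R P]

/-- The underlying type of the algebra. -/
def AA (B : BiM R Γ P) (_ : P →ₗ[R] P →ₗ[R] Γ × P) : Type := have _ := B; Γ × P

instance (B : BiM R Γ P) (β : P →ₗ[R] P →ₗ[R] Γ × P) : AddCommGroup (AA B β) :=
  inferInstanceAs (AddCommGroup (Γ × P))

instance (B : BiM R Γ P) (β : P →ₗ[R] P →ₗ[R] Γ × P) : Module R (AA B β) :=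
  inferInstanceAs (Module R (Γ × P))

theorem mu_add (B : BiM R Γ P) (β : P →ₗ[R] P →ₗ[R] Γ × P) (x y z : Γ × P) :
    B.mu β x (y + z) = B.mu β x y + B.mu β x z := by
  unfold BiM.mu
  ext
  · simp only [Prod.fst_add, Prod.snd_add, mul_add, map_add]
    abel
  · simp only [Prod.fst_add, Prod.snd_add, map_add, op_add, LinearMap.add_apply]
    abel

theorem add_mu (B : BiM R Γ P) (β : P →ₗ[R] P →ₗ[R] Γ × P) (x y z : Γ × P) :
    B.mu β (x + y) z = B.mu β x z + B.mu β y z := by
  unfold BiM.mu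
  ext
  · simp only [Prod.fst_add, Prod.snd_add, add_mul, map_add, LinearMap.add_apply]
    abel
  · simp only [Prod.fst_add, Prod.snd_add, map_add, LinearMap.add_apply]
    abel

theorem smul_mu (B : BiM R Γ P) (β : P →ₗ[R] P →ₗ[R] Γ × P) (r : R) (x y : Γ × P) :
    B.mu β (r • x) y = r • B.mu β x y := by
  unfold BiM.mu
  ext
  · simp only [Prod.fst_add, Prod.smul_fst, Prod.smul_snd, smul_mul_assoc, map_smul,
      LinearMap.smul_apply, smul_add]
  · simp only [Prod.snd_add, Prod.smul_fst, Prod.smul_snd, map_smul,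
      LinearMap.smul_apply, smul_add]

theorem mu_smul (B : BiM R Γ P) (β : P →ₗ[R] P →ₗ[R] Γ × P) (r : R) (x y : Γ × P) :
    B.mu β x (r • y) = r • B.mu β x y := by
  unfold BiM.mu
  ext
  · simp only [Prod.fst_add, Prod.smul_fst, Prod.smul_snd, mul_smul_comm, map_smul, smul_add]
  · simp only [Prod.snd_add, Prod.smul_fst, Prod.smul_snd, map_smul, op_smul,
      LinearMap.smul_apply, smul_add]

theorem one_mu (B : BiM R Γ P) (β : P →ₗ[R] P →ₗ[R] Γ × P) (x : Γ × P) :
    B.mu β (1, 0) x = x := by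
  unfold BiM.mu
  ext
  · simp
  · simp

theorem mu_one (B : BiM R Γ P) (β : P →ₗ[R] P →ₗ[R] Γ × P) (x : Γ × P) :
    B.mu β x (1, 0) = x := by
  unfold BiM.mu
  ext
  · simp
  · simp

/-- The ring structure. -/
@[reducible]
def ringAA (B : BiM R Γ P) (β : P →ₗ[R] P →ₗ[R] Γ × P) (h : ∀ x y z, B.as β x y z = 0) :
    Ring (AA B β) :=
  { (inferInstance : AddCommGroup (AA B β)) with
    mul := B.mu β
    one := ((1, 0) : Γ × P)
    left_distrib := fun x y z => mu_add B β x y z
    right_distrib := fun x y z => add_mu B β x y z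
    zero_mul := fun x => by
      have h := smul_mu B β (0 : R) 0 x
      rw [zero_smul, zero_smul] at h
      exact h
    mul_zero := fun x => by
      have h := mu_smul B β (0 : R) x 0
      rw [zero_smul, zero_smul] at h
      exact h
    mul_assoc := fun x y z => sub_eq_zero.mp (h x y z)
    one_mul := fun x => one_mu B β x
    mul_one := fun x => mu_one B β x }

/-- The algebra structure. -/
@[reducible]
def algAA (B : BiM R Γ P) (β : P →ₗ[R] P →ₗ[R] Γ × P) (h : ∀ x y z, B.as β x y z = 0) :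
    @Algebra R (AA B β) _ (ringAA B β h).toSemiring :=
  letI : Ring (AA B β) := ringAA B β h
  letI : Module R (AA B β) := inferInstanceAs (Module R (Γ × P))
  Algebra.ofModule (fun r x y => smul_mu B β r x y) (fun r x y => mu_smul B β r x y)

theorem rng : RngStmt := by
  intro R Γ P _ _ _ _ _ B β _ h
  exact ⟨AA B β, ringAA B β h, algAA B β h, LinearEquiv.refl R (Γ × P), rfl, fun x y => rfl⟩

end Pool.Agent.PFC.B1.H58
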