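import Pool.Agent.PFC.StmtsB1

set_option autoImplicit false

namespace Pool.Agent.PFC.B1.H58

variable {R A k M N I : Type} [CommRing R] [Ring A] [Algebra R A] [Fintype I] [CommRing k]
  [Algebra R k] [AddCommGroup M] [Module k M] [AddCommGroup N] [Module k N]

theorem rho_smul (ρ : Rp R A k M) (r : R) (a : A) (x : M) :
    ρ.ρ (r • a) x = algebraMap R k r • ρ.ρ a x := by
  rw [Algebra.smul_def, map_mul, Module.End.mul_apply, ρ.sc]

theorem tr_apply (c : FS R A I) (ρ : Rp R A k M) (σ : Rp R A k N) (f : M →ₗ[k] N) (x : M) :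
    c.tr ρ σ f x = ∑ i, σ.ρ (c.b i) (f (ρ.ρ (c.b' i) x)) := by
  unfold FS.tr
  rw [LinearMap.sum_apply]
  rfl

theorem trh : TrhStmt := by
  refine ⟨?_, ?_⟩
  · intro R A I k M N _ _ _ _ _ _ _ _ _ _ c ρ σ f a x
    rw [tr_apply, tr_apply]
    have e1 : ∀ i, σ.ρ (c.b i) (f (ρ.ρ (c.b' i) (ρ.ρ a x))) =
        ∑ l, algebraMap R k (c.lam (c.b' i * a * c.b l)) • σ.ρ (c.b i) (f (ρ.ρ (c.b' l) x)) := by
      intro i
      rw [← Module.End.mul_apply (ρ.ρ (c.b' i)) (ρ.ρ a), ← map_mul]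
      conv_lhs => rw [← c.h2 (c.b' i * a)]
      rw [map_sum, LinearMap.sum_apply, map_sum, map_sum]
      refine Finset.sum_congr rfl fun l _ => ?_
      rw [rho_smul, map_smul, map_smul]
    have e2 : ∀ l, σ.ρ a (σ.ρ (c.b l) (f (ρ.ρ (c.b' l) x))) =
        ∑ i, algebraMap R k (c.lam (c.b' i * a * c.b l)) • σ.ρ (c.b i) (f (ρ.ρ (c.b' l) x)) := by
      intro l
      rw [← Module.End.mul_apply (σ.ρ a) (σ.ρ (c.b l)), ← map_mul]
      conv_lhs => rw [← c.h1 (a * c.b l)]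
      rw [map_sum, LinearMap.sum_apply]
      refine Finset.sum_congr rfl fun i _ => ?_
      rw [rho_smul, mul_assoc]
    rw [Finset.sum_congr rfl fun i _ => e1 i, Finset.sum_comm, map_sum]
    exact Finset.sum_congr rfl fun l _ => (e2 l).symm
  · intro R A I k M N M' N' _ _ _ _ _ _ _ _ _ _ _ _ _ _ c ρ σ ρ' σ' f g h hg hh
    apply LinearMap.ext
    intro x
    rw [tr_apply, LinearMap.comp_apply, LinearMap.comp_apply, tr_apply, map_sum]
    refine Finset.sum_congr rfl fun i _ => ?_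
    rw [LinearMap.comp_apply, LinearMap.comp_apply, hh, hg]

end Pool.Agent.PFC.B1.H58
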